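import Mathlib

/-!
# One relation: inequalities
-/

namespace Pool.Agent.Lib.MP_602b76_co_Rel

theorem pow_upper (σ : ℝ) (h0 : 0 ≤ σ) (h1 : σ ≤ 1) (q : ℕ) :
    (1 - σ) ^ q ≤ 1 - q * σ + q ^ 2 * σ ^ 2 := by
  induction q with
  | zero => simp
  | succ q ih =>
    have h2 : (1 - σ) ^ (q + 1) ≤ (1 - q * σ + q ^ 2 * σ ^ 2) * (1 - σ) := by
      rw [pow_succ]
      exact mul_le_mul_of_nonneg_right ih (by linarith)
    refine le_trans h2 ?_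
    push_cast
    have h3 : (0 : ℝ) ≤ q := by positivity
    have h4 : (0 : ℝ) ≤ (q : ℝ) ^ 2 * σ ^ 3 := by positivity
    have h5 : (0 : ℝ) ≤ (q : ℝ) * σ ^ 2 := by positivity
    have h6 : (0 : ℝ) ≤ σ ^ 2 := by positivity
    nlinarith

/-- The surface of the box, in units of the cube. -/
theorem surface (q : ℕ) (hq : 1 ≤ q) (σ : ℝ) (h0 : 0 ≤ σ) (h1 : (q : ℝ) ^ 2 * σ ≤ 1) :
    (1 + q * σ) * (1 - σ) ^ q + (1 - σ) ^ q + q * ((1 + q * σ) * (1 - σ) ^ (q - 1)) ≤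
      q + 2 + 3 * (q : ℝ) ^ 2 * σ ^ 2 := by
  obtain ⟨p, rfl⟩ : ∃ p, q = p + 1 := ⟨q - 1, by omega⟩
  have hp0 : (0 : ℝ) ≤ p := by positivity
  rw [Nat.add_sub_cancel]
  push_cast at h1 ⊢
  have hσ1 : σ ≤ 1 := by nlinarith [mul_nonneg hp0 h0, mul_nonneg (mul_nonneg hp0 hp0) h0]
  have ha := pow_upper σ h0 hσ1 (p + 1)
  have hb := pow_upper σ h0 hσ1 p
  push_cast at ha
  obtain ⟨q, hq'⟩ : ∃ q : ℝ, q = (p : ℝ) + 1 := ⟨_, rfl⟩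
  rw [← hq'] at ha h1 ⊢
  have hq1 : 1 ≤ q := by rw [hq']; linarith
  have hqσ : q * σ ≤ 1 := by nlinarith [mul_nonneg (by linarith : (0 : ℝ) ≤ q) h0]
  have hpq : (p : ℝ) ≤ q := by linarith
  have hqs0 : 0 ≤ q * σ := by positivity
  -- first part
  have h2 : (1 + q * σ) * (1 - σ) ^ (p + 1) + (1 - σ) ^ (p + 1) ≤
      2 - q * σ + q ^ 2 * σ ^ 2 + q ^ 3 * σ ^ 3 := by
    have e : (1 + q * σ) * (1 - σ) ^ (p + 1) + (1 - σ) ^ (p + 1) =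
        (2 + q * σ) * (1 - σ) ^ (p + 1) := by ring
    rw [e]
    refine le_trans (mul_le_mul_of_nonneg_left ha (by linarith)) (le_of_eq ?_)
    ring
  have h3 : q * ((1 + q * σ) * (1 - σ) ^ p) ≤ q + q * σ + q ^ 4 * σ ^ 3 := by
    have h4 : (1 + q * σ) * (1 - σ) ^ p ≤ 1 + σ + q ^ 3 * σ ^ 3 := by
      refine le_trans (mul_le_mul_of_nonneg_left hb (by linarith)) ?_
      have e : (1 + q * σ) * (1 - p * σ + p ^ 2 * σ ^ 2) =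
          1 + (q - p) * σ - p * (q - p) * σ ^ 2 + q * p ^ 2 * σ ^ 3 := by ring
      rw [e]
      have e2 : q - p = 1 := by linarith
      rw [e2]
      have h5 : (0 : ℝ) ≤ p * 1 * σ ^ 2 := by positivity
      have h6 : q * p ^ 2 * σ ^ 3 ≤ q * q ^ 2 * σ ^ 3 := by gcongr
      have h7 : q * q ^ 2 * σ ^ 3 = q ^ 3 * σ ^ 3 := by ring
      linarith
    refine le_trans (mul_le_mul_of_nonneg_left h4 (by linarith)) (le_of_eq ?_)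
    ring
  have h8 : q ^ 3 * σ ^ 3 ≤ q ^ 2 * σ ^ 2 := by
    have e : q ^ 3 * σ ^ 3 = (q ^ 2 * σ ^ 2) * (q * σ) := by ring
    rw [e]
    exact mul_le_of_le_one_right (by positivity) hqσ
  have h9 : q ^ 4 * σ ^ 3 ≤ q ^ 2 * σ ^ 2 := by
    have e : q ^ 4 * σ ^ 3 = (q ^ 2 * σ ^ 2) * (q ^ 2 * σ) := by ring
    rw [e]
    exact mul_le_of_le_one_right (by positivity) h1
  linarith

/-- The volume of the box. -/
theorem volume (q : ℕ) (σ : ℝ) (h0 : 0 ≤ σ) (h1 : σ ≤ 1) :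
    1 - (q : ℝ) ^ 2 * σ ^ 2 ≤ (1 + q * σ) * (1 - σ) ^ q := by
  have h2 := one_add_mul_le_pow (a := -σ) (by linarith) q
  have h3 : 0 ≤ 1 + q * σ := by positivity
  have h4 : (1 + q * σ) * (1 + q * -σ) ≤ (1 + q * σ) * (1 + -σ) ^ q :=
    mul_le_mul_of_nonneg_left h2 h3
  have e : (1 + q * σ) * (1 + q * -σ) = 1 - (q : ℝ) ^ 2 * σ ^ 2 := by ring
  rw [e] at h4
  exact h4

/-- The final comparison. -/
theorem final (k q : ℕ) (hk : k = q + 2) (hq : 1 ≤ q) (ε κ σ0 σ δ : ℝ) (hε0 : 0 < ε) (hε1 : ε ≤ 1)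
    (hκ : κ = (ε / 2) ^ q) (hσ0 : 16 * (k : ℝ) ^ 4 * σ0 = κ) (hδ : δ = 2 * (k : ℝ) ^ 2 * σ0 ^ 2)
    (h1 : σ0 / 2 ≤ σ) (h2 : σ ≤ σ0) :
    (1 + q * σ) * (1 - σ) ^ q + (1 - σ) ^ q + q * ((1 + q * σ) * (1 - σ) ^ (q - 1)) -
      q * σ * (ε - σ) ^ q < k * (1 - 2 * (k - 1 : ℕ) * δ) := by
  have hκ0 : 0 < κ := by rw [hκ]; positivity
  have hkR : (3 : ℝ) ≤ k := by
    have : 3 ≤ k := by omega
    exact_mod_cast this
  have hk4 : (81 : ℝ) ≤ (k : ℝ) ^ 4 := by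
    calc (81 : ℝ) = 3 ^ 4 := by norm_num
      _ ≤ (k : ℝ) ^ 4 := pow_le_pow_left₀ (by norm_num) hkR 4
  have hσ00 : 0 < σ0 := by
    by_contra h
    push Not at h
    have : 16 * (k : ℝ) ^ 4 * σ0 ≤ 0 := mul_nonpos_of_nonneg_of_nonpos (by positivity) h
    linarith
  have hκε : κ ≤ ε / 2 := by
    rw [hκ]
    exact pow_le_of_le_one (by positivity) (by linarith) (by omega)
  have hσκ : 16 * 81 * σ0 ≤ κ := by
    rw [← hσ0]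
    have := mul_le_mul_of_nonneg_right hk4 hσ00.le
    linarith
  have hqk : (q : ℝ) ≤ k := by
    rw [hk]
    push_cast
    linarith
  have hq1 : (1 : ℝ) ≤ q := by exact_mod_cast hq
  have hσpos : 0 < σ := by linarith
  have hσε : σ ≤ ε / 2 := by linarith
  have h3 : (q : ℝ) ^ 2 * σ ≤ 1 := by
    have h4 : (q : ℝ) ^ 2 ≤ (k : ℝ) ^ 4 := by
      calc (q : ℝ) ^ 2 ≤ (k : ℝ) ^ 2 := pow_le_pow_left₀ (by positivity) hqk 2
        _ ≤ (k : ℝ) ^ 4 := pow_le_pow_right₀ (by linarith) (by norm_num)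
    have h5 : (q : ℝ) ^ 2 * σ ≤ (k : ℝ) ^ 4 * σ0 := by
      apply mul_le_mul h4 h2 hσpos.le (by positivity)
    have h6 : κ ≤ 1 := by linarith
    linarith
  have h4 := surface q hq σ hσpos.le h3
  have h5 : κ ≤ (ε - σ) ^ q := by
    rw [hκ]
    exact pow_le_pow_left₀ (by positivity) (by linarith) q
  have h6 : σ * κ ≤ q * σ * (ε - σ) ^ q := by
    have h7 : 1 * σ ≤ q * σ := mul_le_mul_of_nonneg_right hq1 hσpos.le
    calc σ * κ ≤ (q * σ) * κ := mul_le_mul_of_nonneg_right (by linarith) hκ0.le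
      _ ≤ q * σ * (ε - σ) ^ q := mul_le_mul_of_nonneg_left h5 (by positivity)
  have h7 : ((k - 1 : ℕ) : ℝ) ≤ k := by exact_mod_cast (by omega : k - 1 ≤ k)
  have hδ0 : 0 ≤ δ := by rw [hδ]; positivity
  have h8 : (k : ℝ) - 4 * (k : ℝ) ^ 4 * σ0 ^ 2 ≤ k * (1 - 2 * (k - 1 : ℕ) * δ) := by
    have e : 4 * (k : ℝ) ^ 4 * σ0 ^ 2 = k * (2 * k * δ) := by rw [hδ]; ring
    rw [e]
    have h9 : 2 * ((k - 1 : ℕ) : ℝ) * δ ≤ 2 * k * δ := by gcongr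
    have h10 : (k : ℝ) * (2 * ((k - 1 : ℕ) : ℝ) * δ) ≤ k * (2 * k * δ) :=
      mul_le_mul_of_nonneg_left h9 (by positivity)
    linarith
  have h9 : 3 * (q : ℝ) ^ 2 * σ ^ 2 ≤ 3 * (k : ℝ) ^ 4 * σ0 ^ 2 := by
    have h10 : (q : ℝ) ^ 2 ≤ (k : ℝ) ^ 4 := by
      calc (q : ℝ) ^ 2 ≤ (k : ℝ) ^ 2 := pow_le_pow_left₀ (by positivity) hqk 2
        _ ≤ (k : ℝ) ^ 4 := pow_le_pow_right₀ (by linarith) (by norm_num)
    have h11 : σ ^ 2 ≤ σ0 ^ 2 := pow_le_pow_left₀ hσpos.le h2 2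
    have h12 : (q : ℝ) ^ 2 * σ ^ 2 ≤ (k : ℝ) ^ 4 * σ0 ^ 2 :=
      mul_le_mul h10 h11 (by positivity) (by positivity)
    linarith
  have hkq : (k : ℝ) = q + 2 := by rw [hk]; push_cast; ring
  have h10 : 7 * (k : ℝ) ^ 4 * σ0 ^ 2 < σ * κ := by
    have e : 7 * (k : ℝ) ^ 4 * σ0 ^ 2 = (7 / 16) * σ0 * κ := by rw [← hσ0]; ring
    rw [e]
    have h11 : (7 / 16) * σ0 < σ := by linarith
    exact mul_lt_mul_of_pos_right h11 hκ0
  linarith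

end Pool.Agent.Lib.MP_602b76_co_Rel
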