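import Pool.Agent.Lib.MP_602b76_co_Rel.Low
import Pool.Agent.Lib.MP_602b76_co_Rel.Num
import Pool.Agent.Lib.MP_602b76_co_Rel.Chain3

/-!
# One relation: the criterion
-/

namespace Pool.Agent.Lib.MP_602b76_co_Rel

open Finset Pool.Agent.Lib.MP_602b76_co_Plane Pool.Agent.Lib.MP_602b76_co_Far
open Pool.Agent.Lib.MP_602b76_co_Gen Pool.Agent.Lib.MP_602b76_co_Never

/-- The sides of the competing box. -/
def xx {k : ℕ} (i j0 : Fin k) (L s q : ℕ) (j : Fin k) : ℕ :=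
  if j = i then L else if j = j0 then L + q * s else L - s

section prods

variable {k : ℕ} {i j0 : Fin k} {L s q : ℕ}

theorem xx_i : xx i j0 L s q i = L := by
  unfold xx
  rw [if_pos rfl]

theorem xx_j0 (h : i ≠ j0) : xx i j0 L s q j0 = L + q * s := by
  unfold xx
  rw [if_neg h.symm, if_pos rfl]

theorem xx_r {j : Fin k} (h : j ∈ ((Finset.univ : Finset (Fin k)).erase i).erase j0) :
    xx i j0 L s q j = L - s := by
  unfold xx
  rw [mem_erase, mem_erase] at h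
  rw [if_neg h.2.1, if_neg h.1]

theorem card_R (h : i ≠ j0) :
    (((Finset.univ : Finset (Fin k)).erase i).erase j0).card = k - 2 := by
  rw [card_erase_of_mem, card_erase_of_mem (mem_univ i), card_univ, Fintype.card_fin]
  · omega
  · rw [mem_erase]
    exact ⟨h.symm, mem_univ _⟩

theorem mem_j0 (h : i ≠ j0) : j0 ∈ (Finset.univ : Finset (Fin k)).erase i := by
  rw [mem_erase]
  exact ⟨h.symm, mem_univ _⟩

theorem prod_xx (h : i ≠ j0) (hq : q = k - 2) :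
    ∏ j, xx i j0 L s q j = L * ((L + q * s) * (L - s) ^ q) := by
  rw [← Finset.mul_prod_erase _ _ (mem_univ i), ← Finset.mul_prod_erase _ _ (mem_j0 h), xx_i,
    xx_j0 h, Finset.prod_congr rfl (fun j hj => xx_r hj), Finset.prod_const, card_R h, ← hq]

theorem sum_xx (h : i ≠ j0) (hq : q = k - 2) (hL : 0 < L) (hs : s < L) :
    ((∑ m : Fin k, ∏ j ∈ (Finset.univ : Finset (Fin k)).erase m, xx i j0 L s q j : ℕ) : ℝ) =
      (L + q * s : ℝ) * ((L : ℝ) - s) ^ q + L * ((L : ℝ) - s) ^ q +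
        q * (L * ((L + q * s : ℝ) * ((L : ℝ) - s) ^ (q - 1))) := by
  obtain ⟨V, hV⟩ : ∃ V : ℝ, V = L * ((L + q * s : ℝ) * ((L : ℝ) - s) ^ q) := ⟨_, rfl⟩
  have hLR : (0 : ℝ) < L := by exact_mod_cast hL
  have hsR : (s : ℝ) < L := by exact_mod_cast hs
  have hqs : (0 : ℝ) < L + q * s := by positivity
  have hLs : (0 : ℝ) < (L : ℝ) - s := by linarith
  have hcast : ((L - s : ℕ) : ℝ) = (L : ℝ) - s := by
    rw [Nat.cast_sub hs.le]
  have hprod : ∀ m : Fin k, ((∏ j ∈ (Finset.univ : Finset (Fin k)).erase m,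
      xx i j0 L s q j : ℕ) : ℝ) * (xx i j0 L s q m : ℝ) = V := by
    intro m
    have h1 : (∏ j ∈ (Finset.univ : Finset (Fin k)).erase m, xx i j0 L s q j) *
        xx i j0 L s q m = L * ((L + q * s) * (L - s) ^ q) := by
      rw [← prod_xx h hq, mul_comm]
      exact Finset.mul_prod_erase _ _ (mem_univ m)
    have h2 : (((∏ j ∈ (Finset.univ : Finset (Fin k)).erase m, xx i j0 L s q j) *
        xx i j0 L s q m : ℕ) : ℝ) = ((L * ((L + q * s) * (L - s) ^ q) : ℕ) : ℝ) := by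
      rw [h1]
    rw [Nat.cast_mul] at h2
    rw [h2, hV, Nat.cast_mul, Nat.cast_mul, Nat.cast_pow, hcast, Nat.cast_add, Nat.cast_mul]
  rw [Nat.cast_sum, ← Finset.add_sum_erase _ _ (mem_univ i),
    ← Finset.add_sum_erase _ _ (mem_j0 h)]
  have h1 := hprod i
  rw [xx_i] at h1
  have h2 := hprod j0
  rw [xx_j0 h] at h2
  push_cast at h1 h2
  have h3 : ∑ m ∈ ((Finset.univ : Finset (Fin k)).erase i).erase j0,
      ((∏ j ∈ (Finset.univ : Finset (Fin k)).erase m, xx i j0 L s q j : ℕ) : ℝ) =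
        q * (V / ((L : ℝ) - s)) := by
    rw [Finset.sum_congr rfl (g := fun _ => V / ((L : ℝ) - s)), Finset.sum_const, card_R h, ← hq,
      nsmul_eq_mul]
    intro m hm
    have h4 := hprod m
    rw [xx_r hm, hcast] at h4
    rw [eq_div_iff hLs.ne']
    exact h4
  rw [h3]
  have e1 : ((∏ j ∈ (Finset.univ : Finset (Fin k)).erase i, xx i j0 L s q j : ℕ) : ℝ) =
      (L + q * s : ℝ) * ((L : ℝ) - s) ^ q := by
    push_cast
    apply mul_right_cancel₀ hLR.ne'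
    rw [h1, hV]
    ring
  have e2 : ((∏ j ∈ (Finset.univ : Finset (Fin k)).erase j0, xx i j0 L s q j : ℕ) : ℝ) =
      L * ((L : ℝ) - s) ^ q := by
    push_cast
    apply mul_right_cancel₀ hqs.ne'
    rw [h2, hV]
    ring
  rw [e1, e2]
  rcases Nat.eq_zero_or_pos q with h0 | h0
  · rw [h0]
    simp
  · obtain ⟨p, hp⟩ : ∃ p, q = p + 1 := ⟨q - 1, by omega⟩
    have e3 : V / ((L : ℝ) - s) = L * ((L + q * s : ℝ) * ((L : ℝ) - s) ^ (q - 1)) := by
      rw [div_eq_iff hLs.ne', hV]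
      have : ((L : ℝ) - s) ^ q = ((L : ℝ) - s) ^ (q - 1) * ((L : ℝ) - s) := by
        rw [hp, Nat.add_sub_cancel, pow_succ]
      rw [this]
      ring
    rw [e3]
    ring

theorem touch_xx (h : i ≠ j0) (hq : q = k - 2) (hs : s < L) {l : Fin k → ℤ}
    (hj0 : |l j0| ≤ L) {ε : ℝ} (hεs : (s : ℝ) ≤ ε * L)
    (hl : ∀ j, j ≠ i → j ≠ j0 → (|l j| : ℝ) ≤ (1 - ε) * L) :
    (q * s : ℝ) * (ε * L - s) ^ q ≤
      ((∏ j ∈ (Finset.univ : Finset (Fin k)).erase i,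
        (xx i j0 L s q j - (l j).natAbs) : ℕ) : ℝ) := by
  rw [← Finset.mul_prod_erase _ _ (mem_j0 h), Nat.cast_mul, xx_j0 h]
  have h1 : (q * s : ℝ) ≤ ((L + q * s - (l j0).natAbs : ℕ) : ℝ) := by
    have h0 : (l j0).natAbs ≤ L := by
      have h3 : ((l j0).natAbs : ℤ) ≤ (L : ℤ) := by
        rw [Int.natCast_natAbs]
        exact hj0
      exact_mod_cast h3
    have : q * s ≤ L + q * s - (l j0).natAbs := by
      obtain ⟨w, hw⟩ : ∃ w, w = (l j0).natAbs := ⟨_, rfl⟩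
      rw [← hw] at h0 ⊢
      omega
    exact_mod_cast this
  have h2 : (ε * L - s) ^ q ≤ ((∏ j ∈ ((Finset.univ : Finset (Fin k)).erase i).erase j0,
        (xx i j0 L s q j - (l j).natAbs) : ℕ) : ℝ) := by
    have h3 : (ε * L - s) ^ q = ∏ _j ∈ ((Finset.univ : Finset (Fin k)).erase i).erase j0,
        (ε * L - s) := by
      rw [Finset.prod_const, card_R h, ← hq]
    rw [h3]
    push_cast
    apply Finset.prod_le_prod
    · intro j _
      linarith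
    · intro j hj
      have hj' := hj
      rw [mem_erase, mem_erase] at hj'
      have h4 := hl j hj'.2.1 hj'.1
      rw [xx_r hj]
      have h5 : ((l j).natAbs : ℝ) = |(l j : ℝ)| := by
        have h6 : (((l j).natAbs : ℤ) : ℝ) = ((|l j| : ℤ) : ℝ) := by rw [Int.natCast_natAbs]
        rw [Int.cast_natCast, Int.cast_abs] at h6
        exact h6
      have h7 : (L : ℝ) - s ≤ ((L - s - (l j).natAbs : ℕ) : ℝ) + ((l j).natAbs : ℝ) := by
        have h8 : L ≤ (L - s - (l j).natAbs) + (l j).natAbs + s := by omega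
        have h9 : (L : ℝ) ≤ ((L - s - (l j).natAbs : ℕ) : ℝ) + ((l j).natAbs : ℝ) + s := by
          exact_mod_cast h8
        linarith
      rw [h5] at h7
      linarith
  exact mul_le_mul h1 h2 (pow_nonneg (by linarith) _) (by positivity)

end prods

/-- The criterion for one relation: two coefficients may be near the maximum. -/
theorem crit_core {k : ℕ} (hk3 : 3 ≤ k) {ε κ σ0 δ : ℝ} (hε0 : 0 < ε) (hε1 : ε ≤ 1)
    (hκ : κ = (ε / 2) ^ (k - 2)) (hσ0 : 16 * (k : ℝ) ^ 4 * σ0 = κ)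
    (hδ : δ = 2 * (k : ℝ) ^ 2 * σ0 ^ 2) {Nb : ℕ} (hNb : 0 < Nb) (hpar : Par k 1 Nb) {d : ℕ}
    {u : Fin k → (Fin d → ℤ)} {L : ℕ} (hLb : 2 * Nb ^ k + 2 ≤ L) (hLN : 2 * Nb + 2 ≤ L)
    (hLM : 1 ≤ δ * L)
    (hpar2 : ∀ N : ℕ, L < 2 * N → N ≤ L → ∃ r j : ℕ, 0 < r ∧ r ≤ N ∧
      2 * k * N ^ (k - 1) ≤ r ^ k ∧ 4 * k * r < N ∧ N ^ k < 2 ^ j ∧
        (16 * k * r * j + 3 : ℝ) ≤ δ * N) (hL : Sep u L)
    (l : Fin k → ℤ) (i j0 : Fin k) (hij : i ≠ j0) (hl : ∑ j, l j • u j = 0)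
    (hrel : ∀ z : Fin k → ℤ, ∑ j, z j • u j = 0 → ∃ c : ℤ, z = c • l)
    (hli : |l i| = L) (hlj0 : |l j0| ≤ L)
    (hlj : ∀ j, j ≠ i → j ≠ j0 → (|l j| : ℝ) ≤ (1 - ε) * L) (e : ℕ ≃ (Fin d → ℤ)) :
    ∃ n ≤ L ^ k, ¬ EdgeOptimal (Finset.univ.image u) ((range n).image e) := by
  have hk : 0 < k := by omega
  have hkR : (3 : ℝ) ≤ k := by exact_mod_cast hk3
  obtain ⟨q, hq⟩ : ∃ q, q = k - 2 := ⟨_, rfl⟩
  rw [← hq] at hκ
  have hkq : k = q + 2 := by omega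
  have hq1 : 1 ≤ q := by omega
  have hκ0 : 0 < κ := by rw [hκ]; positivity
  have hκ1 : κ ≤ 1 / 2 := by
    have : κ ≤ ε / 2 := by
      rw [hκ]
      exact pow_le_of_le_one (by positivity) (by linarith) (by omega)
    linarith
  have hk4 : (81 : ℝ) ≤ (k : ℝ) ^ 4 := by
    calc (81 : ℝ) = 3 ^ 4 := by norm_num
      _ ≤ (k : ℝ) ^ 4 := pow_le_pow_left₀ (by norm_num) hkR 4
  have hσ00 : 0 < σ0 := by
    by_contra h
    push Not at h
    have : 16 * (k : ℝ) ^ 4 * σ0 ≤ 0 := mul_nonpos_of_nonneg_of_nonpos (by positivity) h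
    linarith
  have hk2 : (9 : ℝ) ≤ (k : ℝ) ^ 2 := by
    calc (9 : ℝ) = 3 ^ 2 := by norm_num
      _ ≤ (k : ℝ) ^ 2 := pow_le_pow_left₀ (by norm_num) hkR 2
  have hσ01 : 16 * (k : ℝ) ^ 2 * σ0 ≤ 1 / 2 := by
    have h1 : (k : ℝ) ^ 2 ≤ (k : ℝ) ^ 4 := pow_le_pow_right₀ (by linarith) (by norm_num)
    have h2 : (k : ℝ) ^ 2 * σ0 ≤ (k : ℝ) ^ 4 * σ0 := mul_le_mul_of_nonneg_right h1 hσ00.le
    linarith
  have hσ0s : σ0 ≤ 1 / 200 := by
    have h2 : 9 * σ0 ≤ (k : ℝ) ^ 2 * σ0 := mul_le_mul_of_nonneg_right hk2 hσ00.le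
    linarith
  have hδ0 : 0 < δ := by rw [hδ]; positivity
  have hδ1 : δ ≤ 1 / 4 := by
    have h1 : δ = (2 * (k : ℝ) ^ 2 * σ0) * σ0 := by rw [hδ]; ring
    rw [h1]
    have h2 : 2 * (k : ℝ) ^ 2 * σ0 ≤ 1 := by linarith
    have h3 : (2 * (k : ℝ) ^ 2 * σ0) * σ0 ≤ 1 * σ0 := mul_le_mul_of_nonneg_right h2 hσ00.le
    linarith
  by_contra hcon
  push Not at hcon
  have hL3 : 3 ≤ L := by omega
  have hLpos : 0 < L := by omega
  have hLR : (0 : ℝ) < L := by exact_mod_cast hLpos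
  -- the size
  obtain ⟨m, hm⟩ : ∃ m, m = ⌊(L : ℝ) / (1 + δ)⌋₊ := ⟨_, rfl⟩
  have h1δ : 0 < 1 + δ := by linarith
  have hm1 : (m : ℝ) * (1 + δ) ≤ L := by
    rw [← le_div_iff₀ h1δ, hm]
    exact Nat.floor_le (by positivity)
  have hm2 : (L : ℝ) / (1 + δ) < m + 1 := by
    rw [hm]
    exact Nat.lt_floor_add_one _
  have hm3 : (1 - 2 * δ) * L ≤ m := by
    have h1 : (1 - δ) * L ≤ (L : ℝ) / (1 + δ) := by
      rw [le_div_iff₀ h1δ]
      have : (0 : ℝ) ≤ L := by positivity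
      nlinarith [mul_nonneg (mul_nonneg hδ0.le hδ0.le) this]
    nlinarith
  have hm4 : L / 2 ≤ m := by
    rw [hm]
    apply Nat.le_floor
    rw [le_div_iff₀ h1δ]
    have h1 : 2 * (L / 2) ≤ L := by omega
    have h2 : (2 : ℝ) * ((L / 2 : ℕ) : ℝ) ≤ L := by exact_mod_cast h1
    have h3 : (0 : ℝ) ≤ ((L / 2 : ℕ) : ℝ) := by positivity
    nlinarith
  have hm0 : 0 < m := by omega
  have hmltL : m < L := by
    have h1 : (0 : ℝ) < m := by exact_mod_cast hm0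
    have : (m : ℝ) < L := by nlinarith
    exact_mod_cast this
  -- the sides
  obtain ⟨s, hs⟩ : ∃ s, s = ⌊σ0 * L⌋₊ := ⟨_, rfl⟩
  have hs1 : (s : ℝ) ≤ σ0 * L := by
    rw [hs]
    exact Nat.floor_le (by positivity)
  have hs2 : σ0 * L < s + 1 := by
    rw [hs]
    exact Nat.lt_floor_add_one _
  have hσ0L : 2 ≤ σ0 * L := by
    have h1 : δ * L = (2 * (k : ℝ) ^ 2 * σ0) * (σ0 * L) := by rw [hδ]; ring
    have h2 : (2 * (k : ℝ) ^ 2 * σ0) * (σ0 * L) ≤ (1 / 16) * (σ0 * L) :=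
      mul_le_mul_of_nonneg_right (by linarith) (by positivity)
    linarith
  have hsL : s < L := by
    have : (s : ℝ) < L := by
      have h1 : σ0 * L ≤ (1 / 200) * L := mul_le_mul_of_nonneg_right hσ0s hLR.le
      linarith
    exact_mod_cast this
  obtain ⟨σ, hσ⟩ : ∃ σ : ℝ, σ = s / L := ⟨_, rfl⟩
  have hσL : (s : ℝ) = σ * L := by
    rw [hσ]
    field_simp
  have hσ1 : σ0 / 2 ≤ σ := by
    rw [hσ, le_div_iff₀ hLR]
    linarith
  have hσ2 : σ ≤ σ0 := by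
    rw [hσ, div_le_iff₀ hLR]
    exact hs1
  have hσε : σ ≤ ε := by
    have h1 : κ ≤ ε / 2 := by
      rw [hκ]
      exact pow_le_of_le_one (by positivity) (by linarith) (by omega)
    have h2 : 81 * σ0 ≤ (k : ℝ) ^ 4 * σ0 := mul_le_mul_of_nonneg_right hk4 hσ00.le
    linarith
  have hσpos : 0 < σ := by linarith
  -- the relation
  obtain ⟨l', hl', hli', habs, hrel'⟩ : ∃ l' : Fin k → ℤ, ∑ j, l' j • u j = 0 ∧ l' i = L ∧
      (∀ j, |l' j| = |l j|) ∧ ∀ z : Fin k → ℤ, ∑ j, z j • u j = 0 → ∃ c : ℤ, z = c • l' := by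
    rcases abs_choice (l i) with h | h
    · exact ⟨l, hl, by rw [← h, hli], fun j => rfl, hrel⟩
    · refine ⟨-l, ?_, by rw [Pi.neg_apply, ← h, hli], fun j => by rw [Pi.neg_apply, abs_neg], ?_⟩
      · simp only [Pi.neg_apply, neg_smul, Finset.sum_neg_distrib]
        rw [hl, neg_zero]
      · intro z hz
        obtain ⟨c, hc⟩ := hrel z hz
        exact ⟨-c, by rw [neg_smul_neg]; exact hc⟩
  -- the competitor
  have hxi : xx i j0 L s q i = L := xx_i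
  have hcardT := card_image_rb (u := u) (a := (0 : Fin d → ℤ)) (x := xx i j0 L s q) (i := i)
    (l := l') (by rw [habs, hli, hxi]) hrel'
  rw [prod_xx hij hq] at hcardT
  have hfA := fA_rb (u := u) (a := (0 : Fin d → ℤ)) (x := xx i j0 L s q) (i := i) (l := l')
    (by rw [hxi]; exact hLpos) hl' (by rw [hli', hxi])
  have hfAR : (fA u ((rb (xx i j0 L s q)).image (ph u 0)) : ℝ) +
      ((∏ j ∈ (Finset.univ : Finset (Fin k)).erase i,
        (xx i j0 L s q j - (l' j).natAbs) : ℕ) : ℝ) ≤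
      ((∑ m : Fin k, ∏ j ∈ (Finset.univ : Finset (Fin k)).erase m, xx i j0 L s q j : ℕ) : ℝ) := by
    exact_mod_cast hfA
  rw [sum_xx hij hq hLpos hsL] at hfAR
  have htouch := touch_xx (i := i) (j0 := j0) (L := L) (s := s) (q := q) (l := l') (ε := ε)
    hij hq hsL (by rw [habs]; exact hlj0)
    (by rw [hσL]; exact mul_le_mul_of_nonneg_right hσε hLR.le)
    (fun j h1 h2 => by
      have h3 := hlj j h1 h2
      have h4 : |(l' j : ℝ)| = |(l j : ℝ)| := by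
        have h5 : ((|l' j| : ℤ) : ℝ) = ((|l j| : ℤ) : ℝ) := by rw [habs]
        rw [Int.cast_abs, Int.cast_abs] at h5
        exact h5
      rw [h4]
      exact h3)
  -- the volume
  have hcast : ((L - s : ℕ) : ℝ) = (L : ℝ) - s := by
    rw [Nat.cast_sub hsL.le]
  have hqk : (q : ℝ) ≤ k := by
    rw [hkq]
    push_cast
    linarith
  have hvol : m ^ k ≤ ((rb (xx i j0 L s q)).image (ph u 0)).card := by
    rw [hcardT]
    have h1 : ((m ^ k : ℕ) : ℝ) ≤ ((L * ((L + q * s) * (L - s) ^ q) : ℕ) : ℝ) := by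
      have h2 : ((L * ((L + q * s) * (L - s) ^ q) : ℕ) : ℝ) =
          (L : ℝ) ^ k * ((1 + q * σ) * (1 - σ) ^ q) := by
        push_cast
        rw [hcast, hσL, hkq]
        have : ((L : ℝ) - σ * L) ^ q = (L : ℝ) ^ q * (1 - σ) ^ q := by
          rw [← mul_pow]
          ring
        rw [this]
        ring
      rw [h2, Nat.cast_pow]
      have h3 := volume q σ hσpos.le (by linarith)
      have h4 : (m : ℝ) ^ k * (1 + δ) ≤ (L : ℝ) ^ k := by
        have h5 : (1 + δ) ≤ (1 + δ) ^ k := le_self_pow₀ (by linarith) hk.ne'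
        calc (m : ℝ) ^ k * (1 + δ) ≤ (m : ℝ) ^ k * (1 + δ) ^ k :=
              mul_le_mul_of_nonneg_left h5 (by positivity)
          _ = ((m : ℝ) * (1 + δ)) ^ k := by rw [mul_pow]
          _ ≤ (L : ℝ) ^ k := pow_le_pow_left₀ (by positivity) hm1 k
      have h5 : 1 ≤ (1 - (q : ℝ) ^ 2 * σ ^ 2) * (1 + δ) := by
        have h6 : (q : ℝ) ^ 2 * σ ^ 2 ≤ (k : ℝ) ^ 2 * σ0 ^ 2 :=
          mul_le_mul (pow_le_pow_left₀ (by positivity) hqk 2)
            (pow_le_pow_left₀ hσpos.le hσ2 2) (by positivity) (by positivity)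
        have h7 : 2 * ((q : ℝ) ^ 2 * σ ^ 2) ≤ δ := by rw [hδ]; linarith
        have h8 : 0 ≤ (q : ℝ) ^ 2 * σ ^ 2 := by positivity
        nlinarith
      have h6 : 1 ≤ ((1 + q * σ) * (1 - σ) ^ q) * (1 + δ) :=
        le_trans h5 (mul_le_mul_of_nonneg_right h3 h1δ.le)
      have h7 : (m : ℝ) ^ k * (1 + δ) ≤
          ((L : ℝ) ^ k * ((1 + q * σ) * (1 - σ) ^ q)) * (1 + δ) := by
        refine le_trans h4 ?_
        have h8 : (L : ℝ) ^ k * 1 ≤ (L : ℝ) ^ k * (((1 + q * σ) * (1 - σ) ^ q) * (1 + δ)) :=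
          mul_le_mul_of_nonneg_left h6 (by positivity)
        linarith
      exact le_of_mul_le_mul_right h7 h1δ
    exact_mod_cast h1
  have hlow := nested_low hk hL hL3 e hcon hm0 hmltL (fun S h1 h2 h3 =>
    chain3 hk δ hδ0 hNb hpar hL hLb hLN hpar2 S h1 h2 h3 m hm4 hm1) _ hvol
  -- contradiction
  have hpow : (1 - 2 * (k - 1 : ℕ) * δ) * (L : ℝ) ^ (k - 1) ≤ (m : ℝ) ^ (k - 1) := by
    have h1 : (-2 : ℝ) ≤ -(2 * δ) := by linarith
    have h2 := one_add_mul_le_pow h1 (k - 1)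
    have h3 : 0 ≤ (1 - 2 * δ) * (L : ℝ) := by
      apply mul_nonneg (by linarith) hLR.le
    calc (1 - 2 * (k - 1 : ℕ) * δ) * (L : ℝ) ^ (k - 1)
        = (1 + ((k - 1 : ℕ) : ℝ) * -(2 * δ)) * (L : ℝ) ^ (k - 1) := by ring
      _ ≤ (1 + -(2 * δ)) ^ (k - 1) * (L : ℝ) ^ (k - 1) :=
          mul_le_mul_of_nonneg_right h2 (by positivity)
      _ = ((1 - 2 * δ) * L) ^ (k - 1) := by rw [mul_pow]; ring
      _ ≤ (m : ℝ) ^ (k - 1) := pow_le_pow_left₀ h3 hm3 _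
  have hfinal := final k q hkq hq1 ε κ σ0 σ δ hε0 hε1 hκ hσ0 hδ hσ1 hσ2
  obtain ⟨X, hX⟩ : ∃ X : ℝ, X = (L : ℝ) ^ (k - 1) := ⟨_, rfl⟩
  have hX0 : 0 < X := by rw [hX]; positivity
  have hXq : X = L * (L : ℝ) ^ q := by
    rw [hX, hkq]
    have : q + 2 - 1 = q + 1 := by omega
    rw [this, pow_succ]
    ring
  have e1 : (L + q * s : ℝ) * ((L : ℝ) - s) ^ q + L * ((L : ℝ) - s) ^ q +
        q * (L * ((L + q * s : ℝ) * ((L : ℝ) - s) ^ (q - 1))) =
      X * ((1 + q * σ) * (1 - σ) ^ q + (1 - σ) ^ q +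
        q * ((1 + q * σ) * (1 - σ) ^ (q - 1))) := by
    rw [hXq, hσL]
    obtain ⟨p, rfl⟩ : ∃ p, q = p + 1 := ⟨q - 1, by omega⟩
    rw [Nat.add_sub_cancel]
    have h1 : ((L : ℝ) - σ * L) ^ (p + 1) = (L : ℝ) ^ (p + 1) * (1 - σ) ^ (p + 1) := by
      rw [← mul_pow]
      ring
    have h2 : ((L : ℝ) - σ * L) ^ p = (L : ℝ) ^ p * (1 - σ) ^ p := by
      rw [← mul_pow]
      ring
    rw [h1, h2]
    push_cast
    ring
  have e2 : (q * s : ℝ) * (ε * L - s) ^ q = X * (q * σ * (ε - σ) ^ q) := by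
    rw [hXq, hσL]
    have h1 : (ε * (L : ℝ) - σ * L) ^ q = (L : ℝ) ^ q * (ε - σ) ^ q := by
      rw [← mul_pow]
      ring
    rw [h1]
    ring
  rw [e1] at hfAR
  rw [e2] at htouch
  rw [← hX] at hpow
  have h1 : (k : ℝ) * ((1 - 2 * (k - 1 : ℕ) * δ) * X) ≤ k * m ^ (k - 1) :=
    mul_le_mul_of_nonneg_left hpow (by positivity)
  have h2 : X * ((1 + q * σ) * (1 - σ) ^ q + (1 - σ) ^ q +
      q * ((1 + q * σ) * (1 - σ) ^ (q - 1)) - q * σ * (ε - σ) ^ q) <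
        X * (k * (1 - 2 * (k - 1 : ℕ) * δ)) := mul_lt_mul_of_pos_left hfinal hX0
  linarith

end Pool.Agent.Lib.MP_602b76_co_Rel
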