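import Pool.Agent.Lib.MP_602b76_co_Rel.Crit3

/-!
# One relation: the relation of `d + 1` generators
-/

namespace Pool.Agent.Lib.MP_602b76_co_Rel

open Finset Filter Pool.Agent.Lib.MP_602b76_co_Gen

variable {d k : ℕ}

theorem exists_tuple {U : Finset (Fin d → ℤ)} (hU : U.card = k) :
    ∃ u : Fin k → Fin d → ℤ, Finset.univ.image u = U := by
  classical
  refine ⟨fun i => ((U.equivFinOfCardEq hU).symm i).1, ?_⟩
  ext x
  rw [mem_image]
  constructor
  · rintro ⟨i, _, rfl⟩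
    exact ((U.equivFinOfCardEq hU).symm i).2
  · intro hx
    exact ⟨U.equivFinOfCardEq hU ⟨x, hx⟩, mem_univ _, by simp⟩

/-- `d + 1` generators satisfy one relation. -/
theorem exists_rel {u : Fin (d + 1) → (Fin d → ℤ)}
    (hgen : AddSubgroup.closure (Set.range u) = ⊤) :
    ∃ l : Fin (d + 1) → ℤ, l ≠ 0 ∧ ∑ j, l j • u j = 0 ∧
      ∀ z : Fin (d + 1) → ℤ, ∑ j, z j • u j = 0 → ∃ c : ℤ, z = c • l := by
  obtain ⟨φ, hφ⟩ : ∃ φ : (Fin (d + 1) → ℤ) →ₗ[ℤ] (Fin d → ℤ),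
      ∀ z, φ z = ∑ j, z j • u j := ⟨Fintype.linearCombination ℤ u, fun z => rfl⟩
  have hsurj : LinearMap.range φ = ⊤ := by
    rw [eq_top_iff]
    have h1 : (⊤ : AddSubgroup (Fin d → ℤ)) ≤ (LinearMap.range φ).toAddSubgroup := by
      rw [← hgen, AddSubgroup.closure_le]
      rintro x ⟨i, rfl⟩
      rw [SetLike.mem_coe, Submodule.mem_toAddSubgroup]
      exact ⟨ee i, by rw [hφ, sum_ee]⟩
    intro x _
    exact h1 (AddSubgroup.mem_top x)
  have h1 := Submodule.finrank_quotient_add_finrank (LinearMap.ker φ)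
  rw [φ.quotKerEquivRange.finrank_eq, hsurj, finrank_top, Module.finrank_fin_fun,
    Module.finrank_fin_fun] at h1
  have h2 : Module.finrank ℤ (LinearMap.ker φ) = 1 := by omega
  obtain ⟨v, hv, hv2⟩ := finrank_eq_one_iff'.1 h2
  refine ⟨v.1, fun h => hv (Subtype.ext h), ?_, ?_⟩
  · rw [← hφ]
    exact v.2
  · intro z hz
    obtain ⟨c, hc⟩ := hv2 ⟨z, by rw [LinearMap.mem_ker, hφ]; exact hz⟩
    refine ⟨c, ?_⟩
    have := congrArg Subtype.val hc
    exact this.symm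

/-- The index of the subgroup generated by the other generators. -/
theorem index_eq {u : Fin k → (Fin d → ℤ)}
    (hgen : AddSubgroup.closure (Set.range u) = ⊤) {l : Fin k → ℤ}
    (hl : ∑ j, l j • u j = 0)
    (hrel : ∀ z : Fin k → ℤ, ∑ j, z j • u j = 0 → ∃ c : ℤ, z = c • l) (i : Fin k)
    (H : AddSubgroup (Fin d → ℤ)) (hH1 : ∀ j, j ≠ i → u j ∈ H)
    (hH2 : ∀ x ∈ H, ∃ y : Fin k → ℤ, y i = 0 ∧ ∑ j, y j • u j = x) :
    H.index = (l i).natAbs := by
  have hiff : ∀ n : ℤ, n • u i ∈ H ↔ l i ∣ n := by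
    intro n
    constructor
    · intro h
      obtain ⟨y, hy1, hy2⟩ := hH2 _ h
      obtain ⟨c, hc⟩ := hrel (n • ee i - y) (by
        simp only [Pi.sub_apply, Pi.smul_apply, sub_smul, Finset.sum_sub_distrib, smul_assoc]
        rw [hy2, ← Finset.smul_sum, sum_ee, sub_self])
      have h1 := congrFun hc i
      rw [Pi.sub_apply, Pi.smul_apply, Pi.smul_apply, hy1, sub_zero, smul_eq_mul,
        smul_eq_mul] at h1
      have h2 : (ee i : Fin k → ℤ) i = 1 := by simp [ee]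
      rw [h2, mul_one] at h1
      exact ⟨c, by rw [h1, mul_comm]⟩
    · rintro ⟨c, rfl⟩
      have h1 : l i • u i = -∑ j ∈ (Finset.univ : Finset (Fin k)).erase i, l j • u j := by
        rw [← Finset.add_sum_erase _ _ (mem_univ i)] at hl
        exact eq_neg_of_add_eq_zero_left hl
      rw [mul_comm, mul_smul, h1]
      apply H.zsmul_mem
      apply H.neg_mem
      apply H.sum_mem
      intro j hj
      exact H.zsmul_mem (hH1 j (Finset.ne_of_mem_erase hj)) _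
  obtain ⟨g, hg⟩ : ∃ g : (Fin d → ℤ) ⧸ H, g = QuotientAddGroup.mk (u i) := ⟨_, rfl⟩
  have hcyc : ∀ x : (Fin d → ℤ) ⧸ H, x ∈ AddSubgroup.zmultiples g := by
    intro x
    obtain ⟨y, rfl⟩ := QuotientAddGroup.mk_surjective x
    have h1 : (⊤ : AddSubgroup (Fin d → ℤ)) ≤
        (AddSubgroup.zmultiples g).comap (QuotientAddGroup.mk' H) := by
      rw [← hgen, AddSubgroup.closure_le]
      rintro z ⟨j, rfl⟩
      rw [SetLike.mem_coe, AddSubgroup.mem_comap]
      rcases eq_or_ne j i with rfl | hj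
      · rw [hg]
        exact AddSubgroup.mem_zmultiples _
      · have h2 : QuotientAddGroup.mk' H (u j) = 0 := by
          rw [QuotientAddGroup.mk'_apply, QuotientAddGroup.eq_zero_iff]
          exact hH1 j hj
        rw [h2]
        exact AddSubgroup.zero_mem _
    exact h1 (AddSubgroup.mem_top y)
  have h1 := addOrderOf_eq_card_of_forall_mem_zmultiples hcyc
  have h2 : H.index = addOrderOf g := by
    rw [h1]
    rfl
  have h3 : ∀ n : ℤ, (addOrderOf g : ℤ) ∣ n ↔ l i ∣ n := by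
    intro n
    rw [addOrderOf_dvd_iff_zsmul_eq_zero, ← hiff n, hg, ← QuotientAddGroup.mk_zsmul,
      QuotientAddGroup.eq_zero_iff]
  have h4 := Int.natAbs_eq_of_dvd_dvd ((h3 (l i)).2 dvd_rfl) ((h3 (addOrderOf g)).1 dvd_rfl)
  rw [h2, ← h4, Int.natAbs_natCast]

/-- The subgroup generated by the other generators. -/
theorem closure_others {U : Finset (Fin d → ℤ)} {u : Fin k → (Fin d → ℤ)}
    (hinj : Function.Injective u) (hU : Finset.univ.image u = U) (i : Fin k) :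
    (∀ j, j ≠ i → u j ∈ AddSubgroup.closure ((U.erase (u i) : Finset (Fin d → ℤ)) :
        Set (Fin d → ℤ))) ∧
      ∀ x ∈ AddSubgroup.closure ((U.erase (u i) : Finset (Fin d → ℤ)) : Set (Fin d → ℤ)),
        ∃ y : Fin k → ℤ, y i = 0 ∧ ∑ j, y j • u j = x := by
  constructor
  · intro j hj
    apply AddSubgroup.subset_closure
    rw [mem_coe, mem_erase]
    exact ⟨fun h => hj (hinj h), by rw [← hU]; exact mem_image_of_mem _ (mem_univ j)⟩
  · intro x hx
    induction hx using AddSubgroup.closure_induction with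
    | mem x hx =>
      rw [mem_coe, mem_erase, ← hU, mem_image] at hx
      obtain ⟨h1, j, _, rfl⟩ := hx
      refine ⟨ee j, ?_, sum_ee j⟩
      have : j ≠ i := fun h => h1 (by rw [h])
      simp [ee, this.symm]
    | zero => exact ⟨0, rfl, by simp⟩
    | add x y _ _ hx hy =>
      obtain ⟨a, ha1, ha2⟩ := hx
      obtain ⟨b, hb1, hb2⟩ := hy
      refine ⟨a + b, by rw [Pi.add_apply, ha1, hb1, add_zero], ?_⟩
      simp only [Pi.add_apply, add_smul, Finset.sum_add_distrib]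
      rw [ha2, hb2]
    | neg x _ hx =>
      obtain ⟨a, ha1, ha2⟩ := hx
      refine ⟨-a, by rw [Pi.neg_apply, ha1, neg_zero], ?_⟩
      simp only [Pi.neg_apply, neg_smul, Finset.sum_neg_distrib]
      rw [ha2]

/-- Relations are multiples of `l`: short ones vanish. -/
theorem sep_of_rel {u : Fin k → (Fin d → ℤ)} {l : Fin k → ℤ}
    (hrel : ∀ z : Fin k → ℤ, ∑ j, z j • u j = 0 → ∃ c : ℤ, z = c • l) {i : Fin k} {L : ℕ}
    (hi : |l i| = L) : Sep u L := by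
  intro x hx hxL
  obtain ⟨c, hc⟩ := hrel x hx
  have h1 := hxL i
  rw [hc, Pi.smul_apply, smul_eq_mul, abs_mul, hi] at h1
  have h2 : c = 0 := by
    by_contra h
    have h3 : 1 ≤ |c| := Int.one_le_abs h
    have h4 : (0 : ℤ) ≤ L := by positivity
    nlinarith
  rw [hc, h2, zero_smul]

/-- The room of the step is available. -/
theorem room {k q : ℕ} (hk : 0 < k) {c η δ : ℝ} (hη : η = (1 / (k : ℝ) - 2 * c * q) / 2)
    (hη0 : 0 < η) (hc0 : 0 < c) {L N : ℕ} (hL : 0 < L) (hN : L < 2 * N)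
    (hδ : δ = (L : ℝ) ^ (-(2 * c * q)) / (4 ^ q * (128 * (k : ℝ) ^ 6)))
    (hbig : 256 * 4 ^ q * (k : ℝ) ^ 6 ≤ (L : ℝ) ^ η) :
    (N : ℝ) ^ (1 - 1 / (k : ℝ) + η) ≤ δ * N := by
  have hkR : (1 : ℝ) ≤ k := by exact_mod_cast hk
  have hLR : (0 : ℝ) < L := by exact_mod_cast hL
  have hNR : (L : ℝ) / 2 < N := by
    have : (L : ℝ) < 2 * N := by exact_mod_cast hN
    linarith
  have hN0 : (0 : ℝ) < N := by linarith [div_pos hLR (by norm_num : (0 : ℝ) < 2)]
  obtain ⟨a, ha⟩ : ∃ a : ℝ, a = 1 / (k : ℝ) - η := ⟨_, rfl⟩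
  have hq0 : (0 : ℝ) ≤ 2 * c * q := by positivity
  have hk1 : 1 / (k : ℝ) ≤ 1 := by
    rw [div_le_iff₀ (by linarith)]
    linarith
  have ha0 : 0 < a := by rw [ha]; linarith
  have ha1 : a ≤ 1 := by rw [ha]; linarith
  have h1 : (N : ℝ) ^ (1 - 1 / (k : ℝ) + η) = (N : ℝ) ^ (-a) * N := by
    have : 1 - 1 / (k : ℝ) + η = -a + 1 := by rw [ha]; ring
    rw [this, Real.rpow_add hN0, Real.rpow_one]
  rw [h1]
  apply mul_le_mul_of_nonneg_right _ hN0.le
  have h2 : (N : ℝ) ^ (-a) ≤ ((L : ℝ) / 2) ^ (-a) :=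
    Real.rpow_le_rpow_of_nonpos (by positivity) hNR.le (by linarith)
  have h3 : ((L : ℝ) / 2) ^ (-a) ≤ 2 * (L : ℝ) ^ (-a) := by
    rw [Real.div_rpow hLR.le (by norm_num), div_eq_mul_inv, ← Real.rpow_neg (by norm_num),
      neg_neg, mul_comm]
    apply mul_le_mul_of_nonneg_right _ (by positivity)
    calc (2 : ℝ) ^ a ≤ 2 ^ (1 : ℝ) := Real.rpow_le_rpow_of_exponent_le (by norm_num) ha1
      _ = 2 := Real.rpow_one 2
  refine le_trans h2 (le_trans h3 ?_)
  rw [hδ, le_div_iff₀ (by positivity)]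
  have h4 : (L : ℝ) ^ (-(2 * c * q)) = (L : ℝ) ^ (-a) * (L : ℝ) ^ η := by
    rw [← Real.rpow_add hLR]
    congr 1
    rw [ha, hη]
    ring
  rw [h4]
  calc 2 * (L : ℝ) ^ (-a) * (4 ^ q * (128 * (k : ℝ) ^ 6))
      = (L : ℝ) ^ (-a) * (256 * 4 ^ q * (k : ℝ) ^ 6) := by ring
    _ ≤ (L : ℝ) ^ (-a) * (L : ℝ) ^ η := mul_le_mul_of_nonneg_left hbig (by positivity)

/-- **At least three indices are nearly maximal.** -/
theorem three_indices (d : ℕ) (hd : 2 ≤ d) (c : ℝ) (hc0 : 0 < c)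
    (hc1 : c < 1 / (2 * ((d : ℝ) + 1) * ((d : ℝ) - 1))) : ∃ L0 : ℕ,
    ∀ U : Finset (Fin d → ℤ), U.card = d + 1 →
      AddSubgroup.closure (U : Set (Fin d → ℤ)) = ⊤ → ∀ L : ℕ, L0 ≤ L →
        (∀ u ∈ U, (AddSubgroup.closure ((U.erase u : Finset (Fin d → ℤ)) :
          Set (Fin d → ℤ))).index ≤ L) →
        (∃ u ∈ U, (AddSubgroup.closure ((U.erase u : Finset (Fin d → ℤ)) :
          Set (Fin d → ℤ))).index = L) →
        (U.filter (fun u => (L : ℝ) - (L : ℝ) ^ (1 - c) <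
          ((AddSubgroup.closure ((U.erase u : Finset (Fin d → ℤ)) :
            Set (Fin d → ℤ))).index : ℝ))).card ≤ 2 →
        ∀ e : ℕ ≃ (Fin d → ℤ), ∃ n ≤ L ^ (d + 1),
          ¬ Pool.Agent.Lib.MP_602b76_co_Never.EdgeOptimal U ((range n).image e) := by
  obtain ⟨q, hq⟩ : ∃ q, q = d + 1 - 2 := ⟨_, rfl⟩
  have hqd : (q : ℝ) = (d : ℝ) - 1 := by
    have : d = q + 1 := by omega
    rw [this]
    push_cast
    ring
  have hd2 : (2 : ℝ) ≤ d := by exact_mod_cast hd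
  obtain ⟨η, hη⟩ : ∃ η : ℝ, η = (1 / ((d + 1 : ℕ) : ℝ) - 2 * c * q) / 2 := ⟨_, rfl⟩
  have hη0 : 0 < η := by
    rw [hη, hqd]
    push_cast
    have h1 : c * (2 * ((d : ℝ) + 1) * ((d : ℝ) - 1)) < 1 := by
      rw [lt_div_iff₀ (by nlinarith)] at hc1
      exact hc1
    have h2 : 2 * c * ((d : ℝ) - 1) < 1 / ((d : ℝ) + 1) := by
      rw [lt_div_iff₀ (by linarith)]
      linarith
    linarith
  obtain ⟨N0, hpar3⟩ := par3 (d + 1) (by omega) η hη0
  obtain ⟨A1, B1, hparam⟩ := param2 (d + 1) (by omega)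
  obtain ⟨Nb, hNb, _, hpar⟩ := hparam 1 one_pos le_rfl
  obtain ⟨L1, hL1⟩ := eventually_atTop.1 (tendsto_natCast_atTop_atTop.eventually
    ((tendsto_rpow_atTop hη0).eventually_ge_atTop (256 * 4 ^ q * ((d + 1 : ℕ) : ℝ) ^ 6)))
  refine ⟨2 * Nb ^ (d + 1) + 2 * Nb + 2 * N0 + L1 + 3, ?_⟩
  intro U hUc hgen L hL0 hmax hex hfew e
  obtain ⟨u, hu⟩ := exists_tuple hUc
  have hinj : Function.Injective u := by
    have h1 : (Finset.univ.image u).card = (Finset.univ : Finset (Fin (d + 1))).card := by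
      rw [hu, hUc, card_univ, Fintype.card_fin]
    have h2 := Finset.card_image_iff.1 h1
    intro x y hxy
    exact h2 (by simp) (by simp) hxy
  have hgen' : AddSubgroup.closure (Set.range u) = ⊤ := by
    rw [← hgen, ← hu, coe_image, coe_univ, Set.image_univ]
  obtain ⟨l, hl0, hl, hrel⟩ := exists_rel hgen'
  have hidx : ∀ i, (AddSubgroup.closure ((U.erase (u i) : Finset (Fin d → ℤ)) :
      Set (Fin d → ℤ))).index = (l i).natAbs := fun i =>
    index_eq hgen' hl hrel i _ (closure_others hinj hu i).1 (closure_others hinj hu i).2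
  obtain ⟨w, hw, hwL⟩ := hex
  rw [← hu, mem_image] at hw
  obtain ⟨i, _, rfl⟩ := hw
  rw [hidx] at hwL
  have hmem : ∀ j, u j ∈ U := fun j => by rw [← hu]; exact mem_image_of_mem _ (mem_univ j)
  have hli : |l i| = L := by
    rw [← Int.natCast_natAbs, hwL]
  have hmax' : ∀ j, |l j| ≤ L := by
    intro j
    have := hmax (u j) (hmem j)
    rw [hidx] at this
    rw [← Int.natCast_natAbs]
    exact_mod_cast this
  have hLpos : 0 < L := by omega
  have hLR : (0 : ℝ) < L := by exact_mod_cast hLpos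
  have hL1' : (1 : ℝ) ≤ L := by exact_mod_cast hLpos
  obtain ⟨ε, hε⟩ : ∃ ε : ℝ, ε = (L : ℝ) ^ (-c) := ⟨_, rfl⟩
  have hε0 : 0 < ε := by rw [hε]; positivity
  have hε1 : ε ≤ 1 := by
    rw [hε]
    exact Real.rpow_le_one_of_one_le_of_nonpos hL1' (by linarith)
  have hεL : (1 - ε) * L = (L : ℝ) - (L : ℝ) ^ (1 - c) := by
    have h1 : (L : ℝ) ^ (1 - c) = L * (L : ℝ) ^ (-c) := by
      rw [sub_eq_add_neg, Real.rpow_add hLR, Real.rpow_one]
    rw [h1, ← hε]
    ring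
  -- the second index
  have hF : ∃ j0, i ≠ j0 ∧ ∀ j, j ≠ i → j ≠ j0 → (|l j| : ℝ) ≤ (1 - ε) * L := by
    by_contra hno
    push Not at hno
    obtain ⟨j1, hj1⟩ : ∃ j1 : Fin (d + 1), i ≠ j1 := by
      have : Nontrivial (Fin (d + 1)) := Fin.nontrivial_iff_two_le.2 (by omega)
      obtain ⟨j1, hj1⟩ := exists_ne i
      exact ⟨j1, hj1.symm⟩
    obtain ⟨j2, hj2i, _, hj2⟩ := hno j1 hj1
    obtain ⟨j3, hj3i, hj32, hj3⟩ := hno j2 hj2i.symm
    have hin : ∀ j, (1 - ε) * L < (|l j| : ℝ) → u j ∈ U.filter (fun u => (L : ℝ) -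
        (L : ℝ) ^ (1 - c) < ((AddSubgroup.closure ((U.erase u : Finset (Fin d → ℤ)) :
          Set (Fin d → ℤ))).index : ℝ)) := by
      intro j hj
      rw [mem_filter]
      refine ⟨hmem j, ?_⟩
      rw [hidx, ← hεL]
      have h5 : ((l j).natAbs : ℝ) = |(l j : ℝ)| := by
        have h6 : (((l j).natAbs : ℤ) : ℝ) = ((|l j| : ℤ) : ℝ) := by rw [Int.natCast_natAbs]
        rw [Int.cast_natCast, Int.cast_abs] at h6
        exact h6
      rw [h5]
      exact hj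
    have hii : (1 - ε) * L < (|l i| : ℝ) := by
      have h5 : |(l i : ℝ)| = L := by
        have h6 : ((|l i| : ℤ) : ℝ) = ((L : ℤ) : ℝ) := by rw [hli]
        rw [Int.cast_abs, Int.cast_natCast] at h6
        exact h6
      rw [h5]
      have : 0 < ε * L := by positivity
      linarith
    have h3 : ({u i, u j2, u j3} : Finset (Fin d → ℤ)) ⊆ U.filter (fun u => (L : ℝ) -
        (L : ℝ) ^ (1 - c) < ((AddSubgroup.closure ((U.erase u : Finset (Fin d → ℤ)) :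
          Set (Fin d → ℤ))).index : ℝ)) := by
      intro x hx
      rw [mem_insert, mem_insert, mem_singleton] at hx
      rcases hx with rfl | rfl | rfl
      · exact hin i hii
      · exact hin j2 hj2
      · exact hin j3 hj3
    have h4 := card_le_card h3
    have h5 : ({u i, u j2, u j3} : Finset (Fin d → ℤ)).card = 3 := by
      rw [Finset.card_eq_three]
      exact ⟨u i, u j2, u j3, fun h => hj2i (hinj h).symm, fun h => hj3i (hinj h).symm,
        fun h => hj32 (hinj h).symm, rfl⟩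
    omega
  obtain ⟨j0, hij0, hj0⟩ := hF
  -- the parameters
  have hbig := hL1 L (by omega)
  obtain ⟨κ, hκ⟩ : ∃ κ, κ = (ε / 2) ^ (d + 1 - 2) := ⟨_, rfl⟩
  have hk0 : (0 : ℝ) < ((d + 1 : ℕ) : ℝ) := by positivity
  obtain ⟨σ0, hσ0d⟩ : ∃ σ0, σ0 = κ / (16 * ((d + 1 : ℕ) : ℝ) ^ 4) := ⟨_, rfl⟩
  have hσ0 : 16 * ((d + 1 : ℕ) : ℝ) ^ 4 * σ0 = κ := by
    rw [hσ0d]
    field_simp
  obtain ⟨δ, hδ⟩ : ∃ δ, δ = 2 * ((d + 1 : ℕ) : ℝ) ^ 2 * σ0 ^ 2 := ⟨_, rfl⟩
  have hδ2 : δ = (L : ℝ) ^ (-(2 * c * q)) / (4 ^ q * (128 * ((d + 1 : ℕ) : ℝ) ^ 6)) := by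
    have h1 : κ ^ 2 = (L : ℝ) ^ (-(2 * c * q)) / 4 ^ q := by
      rw [hκ, ← hq, ← pow_mul, mul_comm q 2, pow_mul, div_pow, div_pow, hε]
      have e1 : ((L : ℝ) ^ (-c)) ^ 2 = (L : ℝ) ^ (-(2 * c)) := by
        rw [← Real.rpow_natCast, ← Real.rpow_mul hLR.le]
        congr 1
        push_cast
        ring
      have e2 : ((L : ℝ) ^ (-(2 * c))) ^ q = (L : ℝ) ^ (-(2 * c * q)) := by
        rw [← Real.rpow_natCast, ← Real.rpow_mul hLR.le]
        congr 1
        ring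
      rw [e1, e2]
      norm_num
    have h2 : δ * (128 * ((d + 1 : ℕ) : ℝ) ^ 6) = κ ^ 2 := by
      rw [← hσ0, hδ]
      ring
    rw [h1] at h2
    rw [eq_div_iff (by positivity)]
    calc δ * (4 ^ q * (128 * ((d + 1 : ℕ) : ℝ) ^ 6))
        = 4 ^ q * (δ * (128 * ((d + 1 : ℕ) : ℝ) ^ 6)) := by ring
      _ = (L : ℝ) ^ (-(2 * c * q)) := by
          rw [h2]
          field_simp
  have hLM : 1 ≤ δ * L := by
    rw [hδ2, div_mul_eq_mul_div, le_div_iff₀ (by positivity), one_mul]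
    have h1 : (L : ℝ) ^ (-(2 * c * q)) * L = (L : ℝ) ^ (-(2 * c * q) + 1) := by
      rw [Real.rpow_add hLR, Real.rpow_one]
    rw [h1]
    have h2 : (L : ℝ) ^ η ≤ (L : ℝ) ^ (-(2 * c * q) + 1) := by
      apply Real.rpow_le_rpow_of_exponent_le hL1'
      have h3 : 1 / ((d + 1 : ℕ) : ℝ) ≤ 1 := by
        rw [div_le_iff₀ hk0]
        push_cast
        linarith
      linarith
    have h4 : (0 : ℝ) ≤ 4 ^ q * ((d + 1 : ℕ) : ℝ) ^ 6 := by positivity
    have h5 : (4 : ℝ) ^ q * (128 * ((d + 1 : ℕ) : ℝ) ^ 6) ≤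
        256 * 4 ^ q * ((d + 1 : ℕ) : ℝ) ^ 6 := by linarith
    linarith
  obtain ⟨n, hn1, hn2⟩ := crit_core (k := d + 1) (by omega) hε0 hε1 hκ hσ0 hδ hNb hpar
    (u := u) (L := L) (by omega) (by omega) hLM (fun N h1 h2 => by
      obtain ⟨r, j, g1, g2, g3, g4, g5, g6⟩ := hpar3 N (by omega)
      exact ⟨r, j, g1, g2, g3, g4, g5, le_trans g6
        (room (by omega) hη hη0 hc0 hLpos h1 hδ2 hbig)⟩)
    (sep_of_rel hrel hli) l i j0 hij0 hl hrel hli (hmax' j0) hj0 e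
  rw [hu] at hn2
  exact ⟨n, hn1, hn2⟩

end Pool.Agent.Lib.MP_602b76_co_Rel
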