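import Pool.Agent.Lib.MP_602b76_co_Rel.Rb

/-!
# One relation: a lower bound for all sets, if the optimal sets are nested
-/

namespace Pool.Agent.Lib.MP_602b76_co_Rel

open Finset Pool.Agent.Lib.MP_602b76_co_Plane Pool.Agent.Lib.MP_602b76_co_Far
open Pool.Agent.Lib.MP_602b76_co_Gen Pool.Agent.Lib.MP_602b76_co_Never

variable {k d : ℕ} {u : Fin k → (Fin d → ℤ)} {L : ℕ}

theorem sep_ne_zero (hL : Sep u L) (hL3 : 3 ≤ L) (i : Fin k) : u i ≠ 0 := by
  intro h
  have h1 := hL (ee i) (by rw [sum_ee, h]) (fun j => by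
    have := ee_le i j
    rw [abs_lt]
    constructor <;> omega)
  have h2 := congrFun h1 i
  simp [ee] at h2

theorem sep_injective (hL : Sep u L) (hL3 : 3 ≤ L) : Function.Injective u := by
  intro i j h
  by_contra hne
  have h1 := hL (ee i - ee j) (by
    simp only [Pi.sub_apply, sub_smul, Finset.sum_sub_distrib]
    rw [sum_ee, sum_ee, h, sub_self]) (fun m => by
      have h1 := ee_le i m
      have h2 := ee_le j m
      rw [Pi.sub_apply, abs_lt]
      constructor <;> omega)
  have h2 := congrFun h1 i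
  rw [Pi.sub_apply] at h2
  have h3 : (ee i : Fin k → ℤ) i = 1 := by simp [ee]
  have h4 : (ee j : Fin k → ℤ) i = 0 := by simp [ee, hne]
  rw [h3, h4] at h2
  simp at h2

theorem sep_ne_neg (hL : Sep u L) (hL3 : 3 ≤ L) (i j : Fin k) : u i ≠ -u j := by
  intro h
  have h1 := hL (ee i + ee j) (by
    simp only [Pi.add_apply, add_smul, Finset.sum_add_distrib]
    rw [sum_ee, sum_ee, h, neg_add_cancel]) (fun m => by
      have h1 := ee_le i m
      have h2 := ee_le j m
      rw [Pi.add_apply, abs_lt]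
      constructor <;> omega)
  have h2 := congrFun h1 i
  rw [Pi.add_apply] at h2
  have h3 : (ee i : Fin k → ℤ) i = 1 := by simp [ee]
  have h4 := ee_le j i
  rw [h3] at h2
  simp only [Pi.zero_apply] at h2
  omega

/-- If the initial segments of an enumeration are optimal, and the optimal sets of size `m ^ k`
are cubes, all sets with at least `m ^ k` points have as many chains as a cube of side `m`. -/
theorem nested_low (hk : 0 < k) (hL : Sep u L) (hL3 : 3 ≤ L)
    (e : ℕ ≃ (Fin d → ℤ))
    (hcon : ∀ n ≤ L ^ k, EdgeOptimal (Finset.univ.image u) ((range n).image e)) {m : ℕ}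
    (hm0 : 0 < m) (hmL : m < L)
    (hch : ∀ S : ℕ → Finset (Fin d → ℤ), Monotone S → (∀ n, (S n).card = n) →
      (∀ n ≤ L ^ k, ∀ T : Finset (Fin d → ℤ), T.card = n → fA u (S n) ≤ fA u T) →
        ∃ a, S (m ^ k) = (box 0 m).image (ph u a)) (T : Finset (Fin d → ℤ))
    (hT : m ^ k ≤ T.card) : (k : ℝ) * m ^ (k - 1) ≤ fA u T := by
  have hbd := edgeBoundary_eq_fA (sep_injective hL hL3) (sep_ne_neg hL hL3)
  obtain ⟨S, hS⟩ : ∃ S : ℕ → Finset (Fin d → ℤ), ∀ n, S n = (range n).image e :=
    ⟨_, fun _ => rfl⟩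
  have hcard : ∀ n, (S n).card = n := by
    intro n
    rw [hS, card_image_of_injective _ e.injective, card_range]
  have hmono : Monotone S := by
    intro n n' h
    rw [hS, hS]
    exact image_subset_image (range_subset_range.2 h)
  have hopt : ∀ n ≤ L ^ k, ∀ T : Finset (Fin d → ℤ), T.card = n → fA u (S n) ≤ fA u T := by
    intro n hn T hT
    have h1 := hcon n hn T (by rw [hT, ← hS, hcard])
    rw [← hS, hbd, hbd] at h1
    omega
  have hm0' : (0 : ℝ) < m := by exact_mod_cast hm0
  obtain ⟨a, ha⟩ := hch S hmono hcard hopt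
  have hnear : near u a (S (m ^ k)) (box 0 m) = S (m ^ k) := by
    apply subset_antisymm (near_subset _ _)
    intro z hz
    rw [mem_near]
    refine ⟨hz, ?_⟩
    rw [ha, mem_image] at hz
    exact hz
  have hlow := lift_lw (a := a) hL (S := S (m ^ k)) (T := box 0 m) (by
      intro x hx y hy j
      have h1 := mem_box.1 hx j
      have h2 := mem_box.1 hy j
      simp only [Pi.zero_apply] at h1 h2
      have h3 : |x j - y j| ≤ (m : ℤ) - 1 := by
        rw [abs_le]
        constructor <;> omega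
      omega) hm0' (by
        rw [hnear, hcard]
        push_cast
        exact le_rfl)
  rw [hnear, hcard] at hlow
  have hlow' : (k : ℝ) * m ^ (k - 1) ≤ fA u (S (m ^ k)) := by
    have e1 : (k : ℝ) * ((m ^ k : ℕ) : ℝ) = m * (k * m ^ (k - 1)) := by
      obtain ⟨k', rfl⟩ : ∃ k', k = k' + 1 := ⟨k - 1, by omega⟩
      simp only [Nat.add_sub_cancel]
      push_cast
      ring
    rw [e1] at hlow
    exact le_of_mul_le_mul_left hlow hm0'
  obtain ⟨T', hT1, hT2⟩ := remove_many (sep_ne_zero hL hL3) T (m ^ k) hT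
  have hle := le_trans (hopt (m ^ k) (Nat.pow_le_pow_left hmL.le k) T' hT1) hT2
  have hle' : (fA u (S (m ^ k)) : ℝ) ≤ fA u T := by exact_mod_cast hle
  exact le_trans hlow' hle'

end Pool.Agent.Lib.MP_602b76_co_Rel
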