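import Mathlib

/-!
# One relation: the parameters of the step with the best exponent
-/

namespace Pool.Agent.Lib.MP_602b76_co_Rel

open Filter

/-- The parameters of the step: the room needed is `N ^ (1 - 1 / k + η)`. -/
theorem par3 (k : ℕ) (hk : 0 < k) (η : ℝ) (hη : 0 < η) : ∃ N0 : ℕ, ∀ N ≥ N0, ∃ r j : ℕ,
    0 < r ∧ r ≤ N ∧ 2 * k * N ^ (k - 1) ≤ r ^ k ∧ 4 * k * r < N ∧ N ^ k < 2 ^ j ∧
      (16 * k * r * j + 3 : ℝ) ≤ (N : ℝ) ^ (1 - 1 / (k : ℝ) + η) := by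
  have hkR : (1 : ℝ) ≤ k := by exact_mod_cast hk
  have hk0 : (0 : ℝ) < k := by linarith
  -- the logarithm is small
  have h1 : ∀ᶠ x : ℝ in atTop, Real.log x ≤ 1 / (96 * k ^ 3 / Real.log 2) * x ^ η := by
    have h2 := (isLittleO_log_rpow_atTop hη).bound
      (show (0 : ℝ) < 1 / (96 * k ^ 3 / Real.log 2) by
        have := Real.log_pos (show (1 : ℝ) < 2 by norm_num)
        positivity)
    filter_upwards [h2, eventually_ge_atTop 1] with x hx hx1
    rw [Real.norm_of_nonneg (Real.log_nonneg hx1),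
      Real.norm_of_nonneg (Real.rpow_nonneg (by linarith) _)] at hx
    exact hx
  have h2 : ∀ᶠ x : ℝ in atTop, 2 * (48 * (k : ℝ) ^ 3 + 3) ≤ x ^ η :=
    (tendsto_rpow_atTop hη).eventually_ge_atTop _
  have h3 : ∀ᶠ x : ℝ in atTop, 12 * (k : ℝ) ^ 2 + 1 ≤ x ^ (1 / (k : ℝ)) :=
    (tendsto_rpow_atTop (by positivity)).eventually_ge_atTop _
  have h4 : ∀ᶠ N : ℕ in atTop, (Real.log N ≤ 1 / (96 * k ^ 3 / Real.log 2) * (N : ℝ) ^ η ∧
      2 * (48 * (k : ℝ) ^ 3 + 3) ≤ (N : ℝ) ^ η) ∧ 12 * (k : ℝ) ^ 2 + 1 ≤ (N : ℝ) ^ (1 / (k : ℝ)) :=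
    tendsto_natCast_atTop_atTop.eventually ((h1.and h2).and h3)
  obtain ⟨N0, hN0⟩ := eventually_atTop.1 h4
  refine ⟨max N0 2, fun N hN => ?_⟩
  obtain ⟨⟨h5, h6⟩, h7⟩ := hN0 N (le_trans (le_max_left _ _) hN)
  have hN2 : 2 ≤ N := le_trans (le_max_right _ _) hN
  have hNR : (2 : ℝ) ≤ N := by exact_mod_cast hN2
  have hN0' : (0 : ℝ) < N := by linarith
  obtain ⟨x, hx⟩ : ∃ x : ℝ, x = (N : ℝ) ^ (1 - 1 / (k : ℝ)) := ⟨_, rfl⟩
  have hexp : 0 ≤ 1 - 1 / (k : ℝ) := by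
    rw [sub_nonneg, div_le_iff₀ hk0]
    linarith
  have hx1 : 1 ≤ x := by
    rw [hx]
    exact Real.one_le_rpow (by linarith) hexp
  have hxk : x ^ k = (N : ℝ) ^ (k - 1) := by
    rw [hx, ← Real.rpow_natCast, ← Real.rpow_mul hN0'.le]
    have : (1 - 1 / (k : ℝ)) * k = ((k - 1 : ℕ) : ℝ) := by
      rw [Nat.cast_sub hk]
      field_simp
      norm_num
    rw [this, Real.rpow_natCast]
  obtain ⟨r, hr⟩ : ∃ r : ℕ, r = ⌈2 * (k : ℝ) * x⌉₊ := ⟨_, rfl⟩
  have hr1 : 2 * (k : ℝ) * x ≤ r := by rw [hr]; exact Nat.le_ceil _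
  have hr2 : (r : ℝ) ≤ 3 * k * x := by
    have h8 : (r : ℝ) < 2 * k * x + 1 := by
      rw [hr]
      exact Nat.ceil_lt_add_one (by positivity)
    have h9 : 1 ≤ k * x := by nlinarith
    linarith
  obtain ⟨j, hj⟩ : ∃ j : ℕ, j = k * (Nat.log 2 N + 1) := ⟨_, rfl⟩
  have hjN : N ^ k < 2 ^ j := by
    rw [hj, mul_comm, pow_mul]
    exact Nat.pow_lt_pow_left (Nat.lt_pow_succ_log_self (by norm_num) N) hk.ne'
  have hjR : (j : ℝ) ≤ k * (Real.log N / Real.log 2 + 1) := by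
    rw [hj]
    push_cast
    apply mul_le_mul_of_nonneg_left _ hk0.le
    have h8 := Real.natLog_le_logb N 2
    rw [← Real.log_div_log] at h8
    push_cast at h8
    linarith
  have hr0 : 0 < r := by
    have : (0 : ℝ) < r := by
      have : 0 < 2 * (k : ℝ) * x := by positivity
      linarith
    exact_mod_cast this
  have hrN : 4 * k * r < N := by
    have h8 : (4 : ℝ) * k * r < N := by
      have h9 : (N : ℝ) = x * (N : ℝ) ^ (1 / (k : ℝ)) := by
        rw [hx, ← Real.rpow_add hN0']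
        have : 1 - 1 / (k : ℝ) + 1 / (k : ℝ) = 1 := by ring
        rw [this, Real.rpow_one]
      rw [h9]
      calc (4 : ℝ) * k * r ≤ 4 * k * (3 * k * x) := by gcongr
        _ = x * (12 * (k : ℝ) ^ 2) := by ring
        _ < x * (N : ℝ) ^ (1 / (k : ℝ)) := by
            apply mul_lt_mul_of_pos_left _ (by linarith)
            linarith
    exact_mod_cast h8
  refine ⟨r, j, hr0, ?_, ?_, hrN, hjN, ?_⟩
  · have h8 : 1 ≤ k := hk
    nlinarith
  · have h8 : ((2 * k * N ^ (k - 1) : ℕ) : ℝ) ≤ ((r ^ k : ℕ) : ℝ) := by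
      push_cast
      calc (2 : ℝ) * k * (N : ℝ) ^ (k - 1) ≤ (2 * k) ^ k * (N : ℝ) ^ (k - 1) := by
            apply mul_le_mul_of_nonneg_right _ (by positivity)
            exact le_self_pow₀ (by linarith) hk.ne'
        _ = (2 * k * x) ^ k := by rw [mul_pow (2 * (k : ℝ)), hxk]
        _ ≤ (r : ℝ) ^ k := pow_le_pow_left₀ (by positivity) hr1 k
    exact_mod_cast h8
  · have h8 : (N : ℝ) ^ (1 - 1 / (k : ℝ) + η) = x * (N : ℝ) ^ η := by
      rw [hx, ← Real.rpow_add hN0']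
    rw [h8]
    have h9 : 48 * (k : ℝ) ^ 2 * j + 3 ≤ (N : ℝ) ^ η := by
      have hlog2 := Real.log_pos (show (1 : ℝ) < 2 by norm_num)
      have h10 : 48 * (k : ℝ) ^ 2 * j ≤ 48 * (k : ℝ) ^ 2 * (k * (Real.log N / Real.log 2 + 1)) :=
        mul_le_mul_of_nonneg_left hjR (by positivity)
      have h11 : 48 * (k : ℝ) ^ 3 * (Real.log N / Real.log 2) ≤ (N : ℝ) ^ η / 2 := by
        have e : 1 / (96 * (k : ℝ) ^ 3 / Real.log 2) = Real.log 2 / (96 * k ^ 3) := by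
          rw [one_div_div]
        rw [e] at h5
        have h12 : Real.log N / Real.log 2 ≤ (N : ℝ) ^ η / (96 * k ^ 3) := by
          rw [div_le_iff₀ hlog2]
          calc Real.log N ≤ Real.log 2 / (96 * k ^ 3) * (N : ℝ) ^ η := h5
            _ = (N : ℝ) ^ η / (96 * k ^ 3) * Real.log 2 := by ring
        calc 48 * (k : ℝ) ^ 3 * (Real.log N / Real.log 2)
            ≤ 48 * (k : ℝ) ^ 3 * ((N : ℝ) ^ η / (96 * k ^ 3)) :=
              mul_le_mul_of_nonneg_left h12 (by positivity)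
          _ = (N : ℝ) ^ η / 2 := by
              field_simp
              norm_num
      have h13 : 48 * (k : ℝ) ^ 2 * (k * (Real.log N / Real.log 2 + 1)) =
          48 * (k : ℝ) ^ 3 * (Real.log N / Real.log 2) + 48 * (k : ℝ) ^ 3 := by ring
      linarith
    calc (16 * k * r * j + 3 : ℝ) ≤ 16 * k * (3 * k * x) * j + 3 * x := by
          have h10 : (16 : ℝ) * k * r * j ≤ 16 * k * (3 * k * x) * j := by gcongr
          linarith
      _ = x * (48 * (k : ℝ) ^ 2 * j + 3) := by ring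
      _ ≤ x * (N : ℝ) ^ η := mul_le_mul_of_nonneg_left h9 (by linarith)

end Pool.Agent.Lib.MP_602b76_co_Rel
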