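import Pool.Agent.Lib.MP_602b76_co_Gen.Crit2

/-!
# One relation: boxes with different sides
-/

namespace Pool.Agent.Lib.MP_602b76_co_Rel

open Finset Pool.Agent.Lib.MP_602b76_co_Plane Pool.Agent.Lib.MP_602b76_co_Far
open Pool.Agent.Lib.MP_602b76_co_Gen

variable {A : Type*} [AddCommGroup A] [DecidableEq A] {k : ℕ} {u : Fin k → A} {a : A}
  {x : Fin k → ℕ}

/-- The box with corner `0` and sides `x`. -/
noncomputable def rb (x : Fin k → ℕ) : Finset (Fin k → ℤ) :=
  Fintype.piFinset (fun j => Finset.Ico (0 : ℤ) (x j : ℤ))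

theorem mem_rb {z : Fin k → ℤ} : z ∈ rb x ↔ ∀ j, 0 ≤ z j ∧ z j < x j := by
  unfold rb
  rw [Fintype.mem_piFinset]
  simp only [Finset.mem_Ico]

theorem card_rb (x : Fin k → ℕ) : (rb x).card = ∏ j, x j := by
  unfold rb
  rw [Fintype.card_piFinset]
  apply Finset.prod_congr rfl
  intro j _
  rw [Int.card_Ico]
  omega

theorem card_face' (i : Fin k) (x : Fin k → ℕ) :
    ((rb x).filter (fun z => z i = (x i : ℤ) - 1)).card ≤
      ∏ j ∈ (Finset.univ : Finset (Fin k)).erase i, x j := by
  have h1 : (Fintype.piFinset (fun j => if j = i then {(x i : ℤ) - 1} else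
      Finset.Ico (0 : ℤ) (x j : ℤ))).card = ∏ j ∈ (Finset.univ : Finset (Fin k)).erase i, x j := by
    rw [Fintype.card_piFinset, ← Finset.mul_prod_erase _ _ (mem_univ i)]
    simp only [if_true, card_singleton, one_mul]
    apply Finset.prod_congr rfl
    intro j hj
    rw [if_neg (Finset.ne_of_mem_erase hj), Int.card_Ico]
    omega
  rw [← h1]
  apply card_le_card
  intro z hz
  rw [mem_filter, mem_rb] at hz
  rw [Fintype.mem_piFinset]
  intro j
  rcases eq_or_ne j i with rfl | hj
  · rw [if_pos rfl, mem_singleton]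
    exact hz.2
  · rw [if_neg hj, mem_Ico]
    exact hz.1 j

theorem ch_rb (i : Fin k) (x : Fin k → ℕ) :
    ch (u i) ((rb x).image (ph u a)) ≤ ∏ j ∈ (Finset.univ : Finset (Fin k)).erase i, x j := by
  refine le_trans (ch_image_le i _) (le_trans ?_ (card_face' i x))
  unfold ch
  apply card_le_card
  intro z hz
  rw [mem_filter] at hz
  rw [mem_filter]
  refine ⟨hz.1, ?_⟩
  by_contra hne
  apply hz.2
  rw [mem_rb]
  intro j
  have h1 := mem_rb.1 hz.1 j
  rw [Pi.add_apply]
  rcases eq_or_ne j i with rfl | hj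
  · have : (ee j : Fin k → ℤ) j = 1 := by simp [ee]
    rw [this]
    constructor <;> omega
  · have : (ee i : Fin k → ℤ) j = 0 := by simp [ee, hj]
    rw [this, add_zero]
    exact h1

theorem card_overlap' (i : Fin k) (x : Fin k → ℕ) (hx : 0 < x i) (l : Fin k → ℤ) :
    ∏ j ∈ (Finset.univ : Finset (Fin k)).erase i, (x j - (l j).natAbs) ≤
      ((rb x).filter (fun z => z i = (x i : ℤ) - 1 ∧
        ∀ j, j ≠ i → 0 ≤ z j - l j ∧ z j - l j < x j)).card := by
  have h1 : (Fintype.piFinset (fun j => if j = i then {(x i : ℤ) - 1} else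
      Finset.Ico (max 0 (l j)) (min (x j : ℤ) (x j + l j)))).card =
        ∏ j ∈ (Finset.univ : Finset (Fin k)).erase i, (x j - (l j).natAbs) := by
    rw [Fintype.card_piFinset, ← Finset.mul_prod_erase _ _ (mem_univ i)]
    simp only [if_true, card_singleton, one_mul]
    apply Finset.prod_congr rfl
    intro j hj
    rw [if_neg (Finset.ne_of_mem_erase hj), Int.card_Ico]
    omega
  rw [← h1]
  apply card_le_card
  intro z hz
  rw [Fintype.mem_piFinset] at hz
  rw [mem_filter, mem_rb]
  have hi := hz i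
  rw [if_pos rfl, mem_singleton] at hi
  refine ⟨fun j => ?_, hi, fun j hj => ?_⟩
  · rcases eq_or_ne j i with rfl | hj
    · rw [hi]
      constructor <;> omega
    · have := hz j
      rw [if_neg hj, mem_Ico] at this
      constructor <;> omega
  · have := hz j
    rw [if_neg hj, mem_Ico] at this
    constructor <;> omega

theorem ch_rb_touch {i : Fin k} (hx : 0 < x i) {l : Fin k → ℤ} (hl : ∑ j, l j • u j = 0)
    (hli : l i = x i) :
    ch (u i) ((rb x).image (ph u a)) +
      ∏ j ∈ (Finset.univ : Finset (Fin k)).erase i, (x j - (l j).natAbs) ≤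
        ∏ j ∈ (Finset.univ : Finset (Fin k)).erase i, x j := by
  refine le_trans (Nat.add_le_add_left (card_overlap' i x hx l) _) (le_trans ?_ (card_face' i x))
  have h1 : ch (u i) ((rb x).image (ph u a)) ≤ (((rb x).filter
      (fun z => z i = (x i : ℤ) - 1)).filter (fun z => ¬ ∀ j, j ≠ i → 0 ≤ z j - l j ∧
        z j - l j < x j)).card := by
    unfold ch
    refine le_trans (card_le_card ?_) (card_image_le (f := ph u a))
    intro y hy
    rw [mem_filter, mem_image] at hy
    obtain ⟨⟨z, hz, rfl⟩, h1⟩ := hy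
    rw [mem_image]
    refine ⟨z, ?_, rfl⟩
    rw [mem_filter, mem_filter]
    have hzi := mem_rb.1 hz i
    have hlast : z i = (x i : ℤ) - 1 := by
      by_contra hne
      apply h1
      rw [mem_image]
      refine ⟨z + ee i, ?_, ph_add_ee z i⟩
      rw [mem_rb]
      intro j
      rw [Pi.add_apply]
      rcases eq_or_ne j i with rfl | hj
      · have : (ee j : Fin k → ℤ) j = 1 := by simp [ee]
        rw [this]
        constructor <;> omega
      · have : (ee i : Fin k → ℤ) j = 0 := by simp [ee, hj]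
        rw [this, add_zero]
        exact mem_rb.1 hz j
    refine ⟨⟨hz, hlast⟩, fun hcon => h1 ?_⟩
    rw [mem_image]
    refine ⟨z + ee i - l, ?_, ?_⟩
    · rw [mem_rb]
      intro j
      rw [Pi.sub_apply, Pi.add_apply]
      rcases eq_or_ne j i with rfl | hj
      · have : (ee j : Fin k → ℤ) j = 1 := by simp [ee]
        rw [this, hli, hlast]
        constructor <;> omega
      · have : (ee i : Fin k → ℤ) j = 0 := by simp [ee, hj]
        rw [this, add_zero]
        exact hcon j hj
    · rw [sub_eq_add_neg, ph_add, ph_add_ee]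
      have h2 : ∑ j, (-l) j • u j = 0 := by
        simp only [Pi.neg_apply, neg_smul, Finset.sum_neg_distrib]
        rw [hl, neg_zero]
      rw [h2, add_zero]
  have h2 := Finset.card_filter_add_card_filter_not (s := (rb x).filter
      (fun z => z i = (x i : ℤ) - 1)) (fun z => ∀ j, j ≠ i → 0 ≤ z j - l j ∧ z j - l j < x j)
  rw [filter_filter] at h2
  omega

/-- The box has few chains if it touches itself. -/
theorem fA_rb {i : Fin k} (hx : 0 < x i) {l : Fin k → ℤ} (hl : ∑ j, l j • u j = 0)
    (hli : l i = x i) :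
    fA u ((rb x).image (ph u a)) +
      ∏ j ∈ (Finset.univ : Finset (Fin k)).erase i, (x j - (l j).natAbs) ≤
        ∑ m : Fin k, ∏ j ∈ (Finset.univ : Finset (Fin k)).erase m, x j := by
  have h1 := ch_rb_touch (a := a) hx hl hli
  have h2 : fA u ((rb x).image (ph u a)) = ch (u i) ((rb x).image (ph u a)) +
      ∑ j ∈ (Finset.univ : Finset (Fin k)).erase i, ch (u j) ((rb x).image (ph u a)) := by
    unfold fA
    exact (Finset.add_sum_erase _ _ (mem_univ i)).symm
  have h3 : ∑ m : Fin k, ∏ j ∈ (Finset.univ : Finset (Fin k)).erase m, x j =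
      ∏ j ∈ (Finset.univ : Finset (Fin k)).erase i, x j +
        ∑ m ∈ (Finset.univ : Finset (Fin k)).erase i,
          ∏ j ∈ (Finset.univ : Finset (Fin k)).erase m, x j :=
    (Finset.add_sum_erase _ _ (mem_univ i)).symm
  have h4 : ∑ j ∈ (Finset.univ : Finset (Fin k)).erase i, ch (u j) ((rb x).image (ph u a)) ≤
      ∑ m ∈ (Finset.univ : Finset (Fin k)).erase i,
          ∏ j ∈ (Finset.univ : Finset (Fin k)).erase m, x j :=
    Finset.sum_le_sum (fun m _ => ch_rb m x)
  omega

/-- If all relations are multiples of `l`, a box with side `|l i|` in the direction `i` is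
embedded. -/
theorem card_image_rb {i : Fin k} {l : Fin k → ℤ} (hli : |l i| = x i)
    (hrel : ∀ z : Fin k → ℤ, ∑ j, z j • u j = 0 → ∃ c : ℤ, z = c • l) :
    ((rb x).image (ph u a)).card = ∏ j, x j := by
  rw [card_image_of_injOn, card_rb]
  intro z hz z' hz' h
  have h1 : ∑ j, (z - z') j • u j = 0 := by
    have h2 : z = z' + (z - z') := by abel
    rw [h2, ph_add] at h
    exact add_eq_left.1 h
  obtain ⟨c, hc⟩ := hrel _ h1
  have h2 := mem_rb.1 (mem_coe.1 hz) i
  have h3 := mem_rb.1 (mem_coe.1 hz') i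
  have h4 : |(z - z') i| < |l i| := by
    rw [hli, Pi.sub_apply, abs_lt]
    constructor <;> omega
  have h5 : |c| * |l i| < 1 * |l i| := by
    rw [← abs_mul, one_mul]
    have : (z - z') i = c * l i := by
      rw [hc, Pi.smul_apply, smul_eq_mul]
    rw [← this]
    exact h4
  have h6 : |c| < 1 := lt_of_mul_lt_mul_right h5 (abs_nonneg _)
  have h7 : c = 0 := by
    rw [abs_lt] at h6
    omega
  rw [h7, zero_smul] at hc
  exact sub_eq_zero.1 hc

end Pool.Agent.Lib.MP_602b76_co_Rel
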